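import Mathlib
import Pool.Agent.Lib.MP_f47cd5_co.Defs
import Pool.Agent.Lib.MP_f47cd5_co.Bridge
import Pool.Agent.Lib.MP_f47cd5_co.Family
import Pool.Agent.Lib.MP_f47cd5_co.Small
import Pool.Agent.Lib.MP_f47cd5_co.Small2
import Pool.Agent.Lib.MP_f47cd5_co.Upper

set_option autoImplicit false

namespace Pool.Agent.Results.MP_f47cd5_co.LargestCompleteGraph

open Pool.Agent.Lib.MP_f47cd5_co

/-- The family. -/
theorem fam_vis (k : ℕ) : IsArcVis k (⊤ : SimpleGraph (Fin (5 * k + 6))) := by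
  have h := isArcVis_of_disc (Fam.fam (k + 1) (Nat.succ_pos k))
    (Fam.fam_complete (k + 1) (Nat.succ_pos k))
  exact h

/-- The upper bound, integer form. -/
theorem le_of_vis {k n : ℕ} (h : IsArcVis k (⊤ : SimpleGraph (Fin n))) :
    n < 3 * (k + 1) ∨ n * (n - 1) + 3 * ((k + 1) * (k + 2)) ≤ 6 * (k + 1) * n := by
  by_cases hn : 3 * (k + 1) ≤ n
  · exact Or.inr (upper_bound h hn)
  · left; omega

theorem lin_bound {k n : ℕ} (h : IsArcVis k (⊤ : SimpleGraph (Fin n))) : n ≤ 6 * k + 7 := by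
  rcases le_of_vis h with h | h
  · omega
  · by_contra hc
    have h1 : 6 * k + 8 ≤ n := by omega
    obtain ⟨j, rfl⟩ := Nat.exists_eq_add_of_le h1
    have h2 : 6 * k + 8 + j - 1 = 6 * (k + 1) + (j + 1) := by omega
    rw [h2] at h
    nlinarith

/-- The maximum exists. -/
theorem exists_max (k : ℕ) : ∃ m, IsGreatest {n : ℕ | IsArcVis k (⊤ : SimpleGraph (Fin n))} m := by
  classical
  have hne : ({n : ℕ | IsArcVis k (⊤ : SimpleGraph (Fin n))}).Nonempty := ⟨_, fam_vis k⟩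
  have hbd : BddAbove {n : ℕ | IsArcVis k (⊤ : SimpleGraph (Fin n))} :=
    ⟨6 * k + 7, fun n hn => lin_bound hn⟩
  exact ⟨sSup _, Nat.sSup_mem hne hbd, fun n hn => le_csSup hbd hn⟩

theorem max_eq {k m N : ℕ} (hm : IsGreatest {n : ℕ | IsArcVis k (⊤ : SimpleGraph (Fin n))} m)
    (h1 : IsArcVis k (⊤ : SimpleGraph (Fin N)))
    (h2 : ∀ n, 3 * (k + 1) ≤ n → n * (n - 1) + 3 * ((k + 1) * (k + 2)) ≤ 6 * (k + 1) * n → n ≤ N)
    (h3 : 3 * (k + 1) ≤ N) :
    m = N := by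
  apply le_antisymm
  · rcases le_of_vis hm.1 with h | h
    · omega
    · by_cases h4 : 3 * (k + 1) ≤ m
      · exact h2 m h4 h
      · omega
  · exact hm.2 h1

theorem max_mem {k m N : ℕ} (hm : IsGreatest {n : ℕ | IsArcVis k (⊤ : SimpleGraph (Fin n))} m)
    (h1 : IsArcVis k (⊤ : SimpleGraph (Fin N)))
    (h2 : ∀ n, 3 * (k + 1) ≤ n → n * (n - 1) + 3 * ((k + 1) * (k + 2)) ≤ 6 * (k + 1) * n →
      n ≤ N + 1)
    (h3 : 3 * (k + 1) ≤ N) :
    m = N ∨ m = N + 1 := by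
  have h4 : N ≤ m := hm.2 h1
  have h5 : m ≤ N + 1 := by
    rcases le_of_vis hm.1 with h | h
    · omega
    · by_cases h4 : 3 * (k + 1) ≤ m
      · exact h2 m h4 h
      · omega
  omega

/-- Let `m k` be the largest `n` such that the complete graph on `n` vertices is an arc
`k`-visibility graph.  Then `5 k + 6 ≤ m k ≤ (6 k + 7 + √(24 (k + 1)² + 1)) / 2` for every `k`,
and `m 0 = 6`, `m 1 = 11`, `m 2 = 16`, `m 3 = 22`, `m 4 = 27`, while `m 5`, `m 6`, `m 7`, `m 8`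
are `32` or `33`, `37` or `38`, `43` or `44`, `48` or `49`. -/
theorem result :
    ∃ m : ℕ → ℕ,
      (∀ k, IsGreatest {n : ℕ | IsArcVis k (⊤ : SimpleGraph (Fin n))} (m k)) ∧
      (∀ k, 5 * k + 6 ≤ m k) ∧
      (∀ k, (m k : ℝ) ≤ (6 * (k : ℝ) + 7 + √(24 * ((k : ℝ) + 1) ^ 2 + 1)) / 2) ∧
      m 0 = 6 ∧ m 1 = 11 ∧ m 2 = 16 ∧ m 3 = 22 ∧ m 4 = 27 ∧
      (m 5 = 32 ∨ m 5 = 33) ∧ (m 6 = 37 ∨ m 6 = 38) ∧ (m 7 = 43 ∨ m 7 = 44) ∧
      (m 8 = 48 ∨ m 8 = 49) := by
  choose m hm using exists_max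
  refine ⟨m, hm, fun k => (hm k).2 (fam_vis k), ?_, ?_, ?_, ?_, ?_, ?_, ?_, ?_, ?_, ?_⟩
  · intro k
    have hs := Real.sqrt_nonneg (24 * ((k : ℝ) + 1) ^ 2 + 1)
    rcases le_of_vis (hm k).1 with h | h
    · have h' : (m k : ℝ) < 3 * ((k : ℝ) + 1) := by exact_mod_cast h
      have hk : (0 : ℝ) ≤ k := Nat.cast_nonneg k
      linarith
    · by_cases h0 : m k = 0
      · rw [h0]
        have hk : (0 : ℝ) ≤ k := Nat.cast_nonneg k
        push_cast
        positivity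
      have h1 : 1 ≤ m k := Nat.one_le_iff_ne_zero.2 h0
      have h' : (m k : ℝ) * ((m k : ℝ) - 1) + 3 * (((k : ℝ) + 1) * ((k : ℝ) + 2)) ≤
          6 * ((k : ℝ) + 1) * (m k : ℝ) := by
        have := (Nat.cast_le (α := ℝ)).2 h
        push_cast [Nat.cast_sub h1] at this
        exact this
      have h2 : (2 * (m k : ℝ) - (6 * (k : ℝ) + 7)) ^ 2 ≤ 24 * ((k : ℝ) + 1) ^ 2 + 1 := by
        nlinarith
      have h3 := Real.abs_le_sqrt h2
      have h4 := le_abs_self (2 * (m k : ℝ) - (6 * (k : ℝ) + 7))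
      linarith
  · refine max_eq (hm 0) (fam_vis 0) ?_ (by norm_num)
    intro n h1 h2
    by_contra hc
    obtain ⟨j, rfl⟩ := Nat.exists_eq_add_of_le (show 7 ≤ n by omega)
    have h3 : 7 + j - 1 = 6 + j := by omega
    rw [h3] at h2
    nlinarith
  · refine max_eq (hm 1) (fam_vis 1) ?_ (by norm_num)
    intro n h1 h2
    by_contra hc
    obtain ⟨j, rfl⟩ := Nat.exists_eq_add_of_le (show 12 ≤ n by omega)
    have h3 : 12 + j - 1 = 11 + j := by omega
    rw [h3] at h2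
    nlinarith
  · refine max_eq (hm 2) (fam_vis 2) ?_ (by norm_num)
    intro n h1 h2
    by_contra hc
    obtain ⟨j, rfl⟩ := Nat.exists_eq_add_of_le (show 17 ≤ n by omega)
    have h3 : 17 + j - 1 = 16 + j := by omega
    rw [h3] at h2
    nlinarith
  · refine max_eq (hm 3) (isArcVis_of_disc D22 D22_complete) ?_ (by norm_num)
    intro n h1 h2
    by_contra hc
    obtain ⟨j, rfl⟩ := Nat.exists_eq_add_of_le (show 23 ≤ n by omega)
    have h3 : 23 + j - 1 = 22 + j := by omega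
    rw [h3] at h2
    nlinarith
  · refine max_eq (hm 4) (isArcVis_of_disc D27 D27_complete) ?_ (by norm_num)
    intro n h1 h2
    by_contra hc
    obtain ⟨j, rfl⟩ := Nat.exists_eq_add_of_le (show 28 ≤ n by omega)
    have h3 : 28 + j - 1 = 27 + j := by omega
    rw [h3] at h2
    nlinarith
  · refine max_mem (hm 5) (isArcVis_of_disc D32 D32_complete) ?_ (by norm_num)
    intro n h1 h2
    by_contra hc
    obtain ⟨j, rfl⟩ := Nat.exists_eq_add_of_le (show 34 ≤ n by omega)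
    have h3 : 34 + j - 1 = 33 + j := by omega
    rw [h3] at h2
    nlinarith
  · refine max_mem (hm 6) (isArcVis_of_disc D37 D37_complete) ?_ (by norm_num)
    intro n h1 h2
    by_contra hc
    obtain ⟨j, rfl⟩ := Nat.exists_eq_add_of_le (show 39 ≤ n by omega)
    have h3 : 39 + j - 1 = 38 + j := by omega
    rw [h3] at h2
    nlinarith
  · refine max_mem (hm 7) (isArcVis_of_disc D43 D43_complete) ?_ (by norm_num)
    intro n h1 h2
    by_contra hc
    obtain ⟨j, rfl⟩ := Nat.exists_eq_add_of_le (show 45 ≤ n by omega)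
    have h3 : 45 + j - 1 = 44 + j := by omega
    rw [h3] at h2
    nlinarith
  · refine max_mem (hm 8) (isArcVis_of_disc D48 D48_complete) ?_ (by norm_num)
    intro n h1 h2
    by_contra hc
    obtain ⟨j, rfl⟩ := Nat.exists_eq_add_of_le (show 50 ≤ n by omega)
    have h3 : 50 + j - 1 = 49 + j := by omega
    rw [h3] at h2
    nlinarith

end Pool.Agent.Results.MP_f47cd5_co.LargestCompleteGraph
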